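import Mathlib

/-!
# Turing functionals

Codes for Turing functionals (Kleene schemata with an oracle), their evaluation, and the basic
closure properties: computable functions, substitution, pairing of outputs, lazy case distinction,
the use principle and countability.
-/

namespace Pool.Agent.Lib.MP_ed0562_lc

/-- Turing functionals `Φ`, where `Φ g n` is `Φ^g (n)`, a possibly undefined natural number. The
Kleene schemata are those of Mathlib's `Nat.RecursiveIn`, stated uniformly in the oracle
`g : ℕ → ℕ`: the basic functions (zero, successor, the two projections of the pairing function) and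
the oracle, closed under pairing, composition, primitive recursion and the least number
operator. -/
inductive TuringFunctional : ((ℕ → ℕ) → ℕ → Part ℕ) → Prop
  | zero : TuringFunctional fun _ _ => Part.some 0
  | succ : TuringFunctional fun _ n => Part.some (n + 1)
  | left : TuringFunctional fun _ n => Part.some n.unpair.1
  | right : TuringFunctional fun _ n => Part.some n.unpair.2
  | oracle : TuringFunctional fun g n => Part.some (g n)
  | pair {Φ Ψ : (ℕ → ℕ) → ℕ → Part ℕ} : TuringFunctional Φ → TuringFunctional Ψ →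
      TuringFunctional fun g n => Nat.pair <$> Φ g n <*> Ψ g n
  | comp {Φ Ψ : (ℕ → ℕ) → ℕ → Part ℕ} : TuringFunctional Φ → TuringFunctional Ψ →
      TuringFunctional fun g n => Ψ g n >>= Φ g
  | prec {Φ Ψ : (ℕ → ℕ) → ℕ → Part ℕ} : TuringFunctional Φ → TuringFunctional Ψ →
      TuringFunctional fun g p =>
        p.unpair.2.rec (Φ g p.unpair.1) fun y IH =>
          IH >>= fun i => Ψ g (Nat.pair p.unpair.1 (Nat.pair y i))
  | rfind {Φ : (ℕ → ℕ) → ℕ → Part ℕ} : TuringFunctional Φ →
      TuringFunctional fun g x =>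
        Nat.rfind fun n => (fun m => decide (m = 0)) <$> Φ g (Nat.pair x n)

/-- Codes for Turing functionals: the Kleene schemata of Mathlib's `Nat.Partrec` and
`Nat.RecursiveIn`, with one extra basic function, the oracle. -/
inductive OCode : Type
  | zero : OCode
  | succ : OCode
  | left : OCode
  | right : OCode
  | oracle : OCode
  | pair : OCode → OCode → OCode
  | comp : OCode → OCode → OCode
  | prec : OCode → OCode → OCode
  | rfind : OCode → OCode

namespace OCode

/-- `eval c g n` is the value at `n` of the function computed by the code `c` with oracle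
`g : ℕ → ℕ`, that is `Φ_c^g (n)`; it may be undefined. The clauses are those of Mathlib's
`Nat.RecursiveIn`. -/
def eval : OCode → (ℕ → ℕ) → ℕ → Part ℕ
  | zero, _, _ => Part.some 0
  | succ, _, n => Part.some (n + 1)
  | left, _, n => Part.some n.unpair.1
  | right, _, n => Part.some n.unpair.2
  | oracle, g, n => Part.some (g n)
  | pair a b, g, n => Nat.pair <$> eval a g n <*> eval b g n
  | comp a b, g, n => eval b g n >>= eval a g
  | prec a b, g, p =>
      p.unpair.2.rec (eval a g p.unpair.1) fun y IH => do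
        let i ← IH
        eval b g (Nat.pair p.unpair.1 (Nat.pair y i))
  | rfind a, g, x =>
      Nat.rfind fun n => (fun m => decide (m = 0)) <$> eval a g (Nat.pair x n)

/-- `Computes c g f`: the Turing functional `c` with oracle `g` is total and computes `f`. -/
def Computes (c : OCode) (g f : ℕ → ℕ) : Prop := ∀ n, f n ∈ eval c g n

theorem Computes.unique {c : OCode} {g f f' : ℕ → ℕ} (h : Computes c g f)
    (h' : Computes c g f') : f = f' :=
  funext fun n => Part.mem_unique (h n) (h' n)

theorem Computes.eval_eq {c : OCode} {g f : ℕ → ℕ} (h : Computes c g f) (n : ℕ) :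
    eval c g n = Part.some (f n) := Part.eq_some_iff.2 (h n)

theorem computes_oracle (g : ℕ → ℕ) : Computes oracle g g := fun n => by
  simp [eval]

/-- The codes evaluate exactly to the Turing functionals. -/
theorem turingFunctional_iff {Φ : (ℕ → ℕ) → ℕ → Part ℕ} :
    TuringFunctional Φ ↔ ∃ c : OCode, eval c = Φ := by
  constructor
  · intro h
    induction h with
    | zero => exact ⟨zero, rfl⟩
    | succ => exact ⟨succ, rfl⟩
    | left => exact ⟨left, rfl⟩
    | right => exact ⟨right, rfl⟩
    | oracle => exact ⟨oracle, rfl⟩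
    | pair _ _ iha ihb =>
      obtain ⟨a, rfl⟩ := iha
      obtain ⟨b, rfl⟩ := ihb
      exact ⟨pair a b, rfl⟩
    | comp _ _ iha ihb =>
      obtain ⟨a, rfl⟩ := iha
      obtain ⟨b, rfl⟩ := ihb
      exact ⟨comp a b, rfl⟩
    | prec _ _ iha ihb =>
      obtain ⟨a, rfl⟩ := iha
      obtain ⟨b, rfl⟩ := ihb
      exact ⟨prec a b, rfl⟩
    | rfind _ iha =>
      obtain ⟨a, rfl⟩ := iha
      exact ⟨rfind a, rfl⟩
  · rintro ⟨c, rfl⟩
    induction c with
    | zero => exact TuringFunctional.zero
    | succ => exact TuringFunctional.succ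
    | left => exact TuringFunctional.left
    | right => exact TuringFunctional.right
    | oracle => exact TuringFunctional.oracle
    | pair a b iha ihb => exact TuringFunctional.pair iha ihb
    | comp a b iha ihb => exact TuringFunctional.comp iha ihb
    | prec a b iha ihb => exact TuringFunctional.prec iha ihb
    | rfind a iha => exact TuringFunctional.rfind iha

/-- Sanity check: for a fixed oracle the functions computed by codes are exactly those which
Mathlib calls recursive in the oracle. -/
theorem exists_eval_eq_iff_recursiveIn (g : ℕ → ℕ) (f : ℕ →. ℕ) :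
    (∃ c : OCode, ∀ n, eval c g n = f n) ↔ Nat.RecursiveIn {(g : ℕ →. ℕ)} f := by
  constructor
  · rintro ⟨c, hc⟩
    have : Nat.RecursiveIn {(g : ℕ →. ℕ)} (eval c g : ℕ →. ℕ) := by
      clear hc
      induction c with
      | zero => exact Nat.RecursiveIn.zero
      | succ => exact Nat.RecursiveIn.succ
      | left => exact Nat.RecursiveIn.left
      | right => exact Nat.RecursiveIn.right
      | oracle => exact Nat.RecursiveIn.oracle _ rfl
      | pair a b iha ihb => exact Nat.RecursiveIn.pair iha ihb
      | comp a b iha ihb => exact Nat.RecursiveIn.comp iha ihb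
      | prec a b iha ihb => exact Nat.RecursiveIn.prec iha ihb
      | rfind a iha => exact Nat.RecursiveIn.rfind iha
    exact Nat.RecursiveIn.of_eq this hc
  · intro h
    induction h with
    | zero => exact ⟨zero, fun _ => rfl⟩
    | succ => exact ⟨succ, fun _ => rfl⟩
    | left => exact ⟨left, fun _ => rfl⟩
    | right => exact ⟨right, fun _ => rfl⟩
    | oracle k hk =>
      rw [Set.mem_singleton_iff] at hk
      subst hk
      exact ⟨oracle, fun _ => rfl⟩
    | pair _ _ iha ihb =>
      obtain ⟨a, ha⟩ := iha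
      obtain ⟨b, hb⟩ := ihb
      refine ⟨pair a b, fun n => ?_⟩
      simp only [eval, ha, hb]
    | comp _ _ iha ihb =>
      obtain ⟨a, ha⟩ := iha
      obtain ⟨b, hb⟩ := ihb
      refine ⟨comp a b, fun n => ?_⟩
      simp only [eval, hb]
      rw [funext ha]
    | prec _ _ iha ihb =>
      obtain ⟨a, ha⟩ := iha
      obtain ⟨b, hb⟩ := ihb
      refine ⟨prec a b, fun n => ?_⟩
      simp only [eval, ha, hb]
    | rfind _ iha =>
      obtain ⟨a, ha⟩ := iha
      refine ⟨rfind a, fun n => ?_⟩
      simp only [eval, ha]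

/-- Sanity check: for a fixed oracle `g`, the functions `Φ^g` with `Φ` a Turing functional are
exactly those which Mathlib calls recursive in `g`. -/
theorem exists_turingFunctional_iff_recursiveIn (g : ℕ → ℕ) (f : ℕ →. ℕ) :
    (∃ Φ, TuringFunctional Φ ∧ ∀ n, Φ g n = f n) ↔ Nat.RecursiveIn {(g : ℕ →. ℕ)} f := by
  rw [← exists_eval_eq_iff_recursiveIn]
  constructor
  · rintro ⟨Φ, hΦ, h⟩
    obtain ⟨c, rfl⟩ := turingFunctional_iff.1 hΦ
    exact ⟨c, h⟩
  · rintro ⟨c, h⟩
    exact ⟨eval c, turingFunctional_iff.2 ⟨c, rfl⟩, h⟩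

/-- Every recursive function is computed by a code, uniformly in the oracle. -/
theorem exists_of_partrec {f : ℕ →. ℕ} (hf : Nat.Partrec f) :
    ∃ c : OCode, ∀ g n, eval c g n = f n := by
  induction hf with
  | zero => exact ⟨zero, fun _ _ => rfl⟩
  | succ => exact ⟨succ, fun _ _ => rfl⟩
  | left => exact ⟨left, fun _ _ => rfl⟩
  | right => exact ⟨right, fun _ _ => rfl⟩
  | pair _ _ iha ihb =>
    obtain ⟨a, ha⟩ := iha
    obtain ⟨b, hb⟩ := ihb
    refine ⟨pair a b, fun g n => ?_⟩
    simp only [eval, ha, hb]
  | comp _ _ iha ihb =>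
    obtain ⟨a, ha⟩ := iha
    obtain ⟨b, hb⟩ := ihb
    refine ⟨comp a b, fun g n => ?_⟩
    simp only [eval, hb]
    rw [funext (ha g)]
  | prec _ _ iha ihb =>
    obtain ⟨a, ha⟩ := iha
    obtain ⟨b, hb⟩ := ihb
    refine ⟨prec a b, fun g n => ?_⟩
    simp only [eval, ha, hb]
  | rfind _ iha =>
    obtain ⟨a, ha⟩ := iha
    refine ⟨rfind a, fun g n => ?_⟩
    simp only [eval, ha]

/-- Every total computable function on the natural numbers has a code. -/
theorem exists_of_computable {f : ℕ → ℕ} (hf : Computable f) :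
    ∃ c : OCode, ∀ g n, eval c g n = Part.some (f n) := by
  obtain ⟨c, hc⟩ := exists_of_partrec (Partrec.nat_iff.1 hf)
  exact ⟨c, fun g n => by rw [hc]; rfl⟩

/-- An injection of the codes into the natural numbers. -/
def toNat : OCode → ℕ
  | zero => Nat.pair 0 0
  | succ => Nat.pair 1 0
  | left => Nat.pair 2 0
  | right => Nat.pair 3 0
  | oracle => Nat.pair 4 0
  | pair a b => Nat.pair 5 (Nat.pair (toNat a) (toNat b))
  | comp a b => Nat.pair 6 (Nat.pair (toNat a) (toNat b))
  | prec a b => Nat.pair 7 (Nat.pair (toNat a) (toNat b))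
  | rfind a => Nat.pair 8 (toNat a)

theorem toNat_injective : Function.Injective toNat := by
  intro a
  induction a with
  | zero | succ | left | right | oracle =>
    intro b h
    cases b <;> simp [toNat, Nat.pair_eq_pair] at h ⊢
  | pair a1 a2 ih1 ih2 | comp a1 a2 ih1 ih2 | prec a1 a2 ih1 ih2 =>
    intro b h
    cases b <;> simp [toNat, Nat.pair_eq_pair] at h ⊢
    exact ⟨ih1 h.1, ih2 h.2⟩
  | rfind a1 ih =>
    intro b h
    cases b <;> simp [toNat, Nat.pair_eq_pair] at h ⊢
    exact ih h

instance : Countable OCode := toNat_injective.countable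

instance : Nonempty OCode := ⟨zero⟩

/-- Substitution of a functional for the oracle. -/
def subst : OCode → OCode → OCode
  | zero, _ => zero
  | succ, _ => succ
  | left, _ => left
  | right, _ => right
  | oracle, d => d
  | pair a b, d => pair (subst a d) (subst b d)
  | comp a b, d => comp (subst a d) (subst b d)
  | prec a b, d => prec (subst a d) (subst b d)
  | rfind a, d => rfind (subst a d)

theorem eval_subst {c d : OCode} {g h : ℕ → ℕ} (hd : Computes d g h) (n : ℕ) :
    eval (subst c d) g n = eval c h n := by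
  induction c generalizing n with
  | zero | succ | left | right => rfl
  | oracle => exact hd.eval_eq n
  | pair a b iha ihb => simp only [subst, eval, iha, ihb]
  | comp a b iha ihb =>
    simp only [subst, eval, ihb]
    rw [funext iha]
  | prec a b iha ihb => simp only [subst, eval, iha, ihb]
  | rfind a iha => simp only [subst, eval, iha]

theorem Computes.trans {c d : OCode} {g h k : ℕ → ℕ} (hd : Computes d g h)
    (hc : Computes c h k) : Computes (subst c d) g k := fun n => by
  rw [eval_subst hd]; exact hc n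

theorem eval_pair_some {a b : OCode} {g : ℕ → ℕ} {n x y : ℕ} (ha : eval a g n = Part.some x)
    (hb : eval b g n = Part.some y) : eval (pair a b) g n = Part.some (Nat.pair x y) := by
  simp [eval, ha, hb, Seq.seq]

theorem eval_comp_some {a b : OCode} {g : ℕ → ℕ} {n x : ℕ} (hb : eval b g n = Part.some x) :
    eval (comp a b) g n = eval a g x := by
  simp only [eval, hb, Part.bind_eq_bind, Part.bind_some]

/-- A functional given by a computable function of the argument and of one value each of the
results of two functionals. -/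
theorem exists_combine (c d : OCode) {α β : ℕ → ℕ} {F : ℕ → ℕ → ℕ → ℕ} (hα : Computable α)
    (hβ : Computable β) (hF : Computable fun p : ℕ × ℕ × ℕ => F p.1 p.2.1 p.2.2) :
    ∃ e : OCode, ∀ g h k, Computes c g h → Computes d g k →
      Computes e g fun n => F n (h (α n)) (k (β n)) := by
  obtain ⟨a, ha⟩ := exists_of_computable hα
  obtain ⟨b, hb⟩ := exists_of_computable hβ
  have hF' : Computable fun m : ℕ =>
      F m.unpair.1 m.unpair.2.unpair.1 m.unpair.2.unpair.2 := by
    have h1 : Computable fun m : ℕ =>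
        (m.unpair.1, m.unpair.2.unpair.1, m.unpair.2.unpair.2) := by
      have hu : Computable Nat.unpair := Primrec.unpair.to_comp
      have hu2 : Computable fun m : ℕ => m.unpair.2.unpair :=
        hu.comp (Computable.snd.comp hu)
      exact Computable.pair (Computable.fst.comp hu)
        (Computable.pair (Computable.fst.comp hu2) (Computable.snd.comp hu2))
    exact hF.comp h1
  obtain ⟨f, hf⟩ := exists_of_computable hF'
  obtain ⟨i, hi⟩ := exists_of_computable Computable.id
  refine ⟨comp f (pair i (pair (comp c a) (comp d b))), fun g h k hh hk n => ?_⟩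
  have h1 : eval (comp c a) g n = Part.some (h (α n)) := by
    rw [eval_comp_some (ha g n), hh.eval_eq]
  have h2 : eval (comp d b) g n = Part.some (k (β n)) := by
    rw [eval_comp_some (hb g n), hk.eval_eq]
  have h3 := eval_pair_some (hi g n) (eval_pair_some h1 h2)
  rw [eval_comp_some h3, hf]
  simp

/-- A functional given by a computable function of the argument and of two values of the
oracle. -/
theorem exists_combine' {α β : ℕ → ℕ} {F : ℕ → ℕ → ℕ → ℕ} (hα : Computable α)
    (hβ : Computable β) (hF : Computable fun p : ℕ × ℕ × ℕ => F p.1 p.2.1 p.2.2) :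
    ∃ e : OCode, ∀ g, Computes e g fun n => F n (g (α n)) (g (β n)) := by
  obtain ⟨e, he⟩ := exists_combine oracle oracle hα hβ hF
  exact ⟨e, fun g => he g g g (computes_oracle g) (computes_oracle g)⟩

/-- Lazy case distinction on a value of the oracle. -/
theorem exists_cond (m : ℕ) (c d : OCode) : ∃ e : OCode, ∀ g,
    (g m = 0 → ∀ n, eval e g n = eval c g n) ∧ (g m ≠ 0 → ∀ n, eval e g n = eval d g n) := by
  obtain ⟨i, hi⟩ := exists_of_computable Computable.id
  obtain ⟨km, hkm⟩ := exists_of_computable (Computable.const (α := ℕ) m)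
  obtain ⟨a0, ha0⟩ := exists_of_computable (f := fun n => if n = 0 then 1 else 0)
    (Primrec.ite (Primrec.eq.comp Primrec.id (Primrec.const 0)) (Primrec.const 1)
      (Primrec.const 0)).to_comp
  obtain ⟨a1, ha1⟩ := exists_of_computable (f := fun n => if n = 0 then 0 else 1)
    (Primrec.ite (Primrec.eq.comp Primrec.id (Primrec.const 0)) (Primrec.const 0)
      (Primrec.const 1)).to_comp
  obtain ⟨ad, had⟩ := exists_of_computable (f := fun n => n.unpair.1 + n.unpair.2)
    (Primrec.nat_add.comp (Primrec.fst.comp Primrec.unpair)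
      (Primrec.snd.comp Primrec.unpair)).to_comp
  -- the value of the oracle at m
  have hv : ∀ g n, eval (comp oracle km) g n = Part.some (g m) := fun g n => by
    rw [eval_comp_some (hkm g n)]; rfl
  -- evaluate `c` once if the test value is one, and not at all otherwise
  have hL1 : ∀ (t c : OCode) g n, eval t g n = Part.some 1 →
      eval (comp (prec zero (comp c left)) (pair i t)) g n = eval c g n := by
    intro t c g n ht
    rw [eval_comp_some (eval_pair_some (hi g n) ht)]
    simp [eval]
  have hL0 : ∀ (t c : OCode) g n, eval t g n = Part.some 0 →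
      eval (comp (prec zero (comp c left)) (pair i t)) g n = Part.some 0 := by
    intro t c g n ht
    rw [eval_comp_some (eval_pair_some (hi g n) ht)]
    simp [eval]
  refine ⟨comp ad (pair (comp (prec zero (comp c left)) (pair i (comp a0 (comp oracle km))))
    (comp (prec zero (comp d left)) (pair i (comp a1 (comp oracle km))))),
    fun g => ⟨fun h n => ?_, fun h n => ?_⟩⟩
  · have h0 : eval (comp a0 (comp oracle km)) g n = Part.some 1 := by
      rw [eval_comp_some (hv g n), ha0, if_pos h]
    have h1 : eval (comp a1 (comp oracle km)) g n = Part.some 0 := by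
      rw [eval_comp_some (hv g n), ha1, if_pos h]
    have e1 := hL1 _ c g n h0
    have e2 := hL0 _ d g n h1
    ext x
    rw [eval.eq_7, eval.eq_6, e1, e2]
    simp [Seq.seq, had]
  · have h0 : eval (comp a0 (comp oracle km)) g n = Part.some 0 := by
      rw [eval_comp_some (hv g n), ha0, if_neg h]
    have h1 : eval (comp a1 (comp oracle km)) g n = Part.some 1 := by
      rw [eval_comp_some (hv g n), ha1, if_neg h]
    have e1 := hL0 _ c g n h0
    have e2 := hL1 _ d g n h1
    ext x
    rw [eval.eq_7, eval.eq_6, e1, e2]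
    simp [Seq.seq, had]

theorem mem_eval_pair {a b : OCode} {g : ℕ → ℕ} {n v : ℕ} :
    v ∈ eval (pair a b) g n ↔ ∃ x ∈ eval a g n, ∃ y ∈ eval b g n, Nat.pair x y = v := by
  simp [eval, Seq.seq]

theorem mem_eval_comp {a b : OCode} {g : ℕ → ℕ} {n v : ℕ} :
    v ∈ eval (comp a b) g n ↔ ∃ x ∈ eval b g n, v ∈ eval a g x := by
  simp [eval]

theorem mem_eval_prec_zero {a b : OCode} {g : ℕ → ℕ} {x v : ℕ} :
    v ∈ eval (prec a b) g (Nat.pair x 0) ↔ v ∈ eval a g x := by
  simp [eval]

theorem mem_eval_prec_succ {a b : OCode} {g : ℕ → ℕ} {x m v : ℕ} :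
    v ∈ eval (prec a b) g (Nat.pair x (m + 1)) ↔ ∃ y ∈ eval (prec a b) g (Nat.pair x m),
      v ∈ eval b g (Nat.pair x (Nat.pair m y)) := by
  simp [eval]

theorem mem_eval_rfind {a : OCode} {g : ℕ → ℕ} {n v : ℕ} :
    v ∈ eval (rfind a) g n ↔ 0 ∈ eval a g (Nat.pair n v) ∧
      ∀ k < v, ∃ w ∈ eval a g (Nat.pair n k), w ≠ 0 := by
  have key : v ∈ eval (rfind a) g n ↔
      true ∈ Part.map (fun m => decide (m = 0)) (eval a g (Nat.pair n v)) ∧
      ∀ {k : ℕ}, k < v → false ∈ Part.map (fun m => decide (m = 0)) (eval a g (Nat.pair n k)) :=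
    Nat.mem_rfind
  rw [key]
  simp only [Part.mem_map_iff]
  constructor
  · rintro ⟨⟨w, hw, hw0⟩, hlt⟩
    have : w = 0 := by simpa using hw0
    subst this
    refine ⟨hw, fun k hk => ?_⟩
    obtain ⟨w, hw, hw0⟩ := hlt hk
    exact ⟨w, hw, by simpa using hw0⟩
  · rintro ⟨hw, hlt⟩
    refine ⟨⟨0, hw, by simp⟩, fun {k} hk => ?_⟩
    obtain ⟨w, hw, hw0⟩ := hlt k hk
    exact ⟨w, hw, by simpa using hw0⟩

/-- The use principle: a converging computation uses only finitely many oracle values. -/
theorem exists_use {c : OCode} {g : ℕ → ℕ} {n v : ℕ} (h : v ∈ eval c g n) :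
    ∃ u : ℕ, ∀ g' : ℕ → ℕ, (∀ i < u, g' i = g i) → v ∈ eval c g' n := by
  induction c generalizing n v with
  | zero | succ | left | right => exact ⟨0, fun g' _ => h⟩
  | oracle =>
    refine ⟨n + 1, fun g' hg' => ?_⟩
    simp only [eval, Part.mem_some_iff] at h ⊢
    rw [h, hg' n (Nat.lt_succ_self n)]
  | pair a b iha ihb =>
    obtain ⟨x, hx, y, hy, rfl⟩ := mem_eval_pair.1 h
    obtain ⟨u1, h1⟩ := iha hx
    obtain ⟨u2, h2⟩ := ihb hy
    refine ⟨max u1 u2, fun g' hg' => mem_eval_pair.2 ?_⟩
    exact ⟨x, h1 g' fun i hi => hg' i (lt_max_of_lt_left hi), y,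
      h2 g' fun i hi => hg' i (lt_max_of_lt_right hi), rfl⟩
  | comp a b iha ihb =>
    obtain ⟨x, hx, hv⟩ := mem_eval_comp.1 h
    obtain ⟨u1, h1⟩ := ihb hx
    obtain ⟨u2, h2⟩ := iha hv
    refine ⟨max u1 u2, fun g' hg' => mem_eval_comp.2 ?_⟩
    exact ⟨x, h1 g' fun i hi => hg' i (lt_max_of_lt_left hi),
      h2 g' fun i hi => hg' i (lt_max_of_lt_right hi)⟩
  | prec a b iha ihb =>
    obtain ⟨x, m, rfl⟩ : ∃ x m, n = Nat.pair x m := ⟨n.unpair.1, n.unpair.2, by simp⟩
    induction m generalizing v with
    | zero =>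
      obtain ⟨u, hu⟩ := iha (mem_eval_prec_zero.1 h)
      exact ⟨u, fun g' hg' => mem_eval_prec_zero.2 (hu g' hg')⟩
    | succ m ihm =>
      obtain ⟨y, hy, hv⟩ := mem_eval_prec_succ.1 h
      obtain ⟨u1, h1⟩ := ihm hy
      obtain ⟨u2, h2⟩ := ihb hv
      refine ⟨max u1 u2, fun g' hg' => mem_eval_prec_succ.2 ?_⟩
      exact ⟨y, h1 g' fun i hi => hg' i (lt_max_of_lt_left hi),
        h2 g' fun i hi => hg' i (lt_max_of_lt_right hi)⟩
  | rfind a iha =>
    obtain ⟨hw, hlt⟩ := mem_eval_rfind.1 h
    obtain ⟨u1, h1⟩ := iha hw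
    have h3 : ∀ k : ℕ, ∃ u, k < v → ∀ g' : ℕ → ℕ, (∀ i < u, g' i = g i) →
        ∃ w ∈ eval a g' (Nat.pair n k), w ≠ 0 := by
      intro k
      by_cases hk : k < v
      · obtain ⟨w, hw, hw0⟩ := hlt k hk
        obtain ⟨u, hu⟩ := iha hw
        exact ⟨u, fun _ g' hg' => ⟨w, hu g' hg', hw0⟩⟩
      · exact ⟨0, fun h => absurd h hk⟩
    choose u hu using h3
    refine ⟨max u1 ((Finset.range v).sup u), fun g' hg' => mem_eval_rfind.2 ⟨?_, fun k hk => ?_⟩⟩
    · exact h1 g' fun i hi => hg' i (lt_max_of_lt_left hi)
    · refine hu k hk g' fun i hi => hg' i (lt_max_of_lt_right ?_)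
      exact lt_of_lt_of_le hi (Finset.le_sup (Finset.mem_range.2 hk))

end OCode

end Pool.Agent.Lib.MP_ed0562_lc
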