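import Pool.Agent.Lib.MP_ed0562_lc.Codes

/-!
# Medvedev degrees of closed sets

Medvedev reducibility, the lattices of Medvedev degrees of nonempty closed subsets of Baire space
and of Cantor space, and the first-order language of lattices.
-/

namespace Pool.Agent.Lib.MP_ed0562_lc

open OCode

/-- Medvedev reducibility `A ≤_M B`: there is a Turing functional `Φ` such that for every `g ∈ B`
the function `Φ^g` is total and belongs to `A`. -/
def MedvedevLE (A B : Set (ℕ → ℕ)) : Prop :=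
  ∃ Φ, TuringFunctional Φ ∧ ∀ g ∈ B, ∃ f ∈ A, ∀ n, Φ g n = Part.some (f n)

theorem medvedevLE_iff {A B : Set (ℕ → ℕ)} :
    MedvedevLE A B ↔ ∃ c : OCode, ∀ g ∈ B, ∃ f ∈ A, Computes c g f := by
  constructor
  · rintro ⟨Φ, hΦ, h⟩
    obtain ⟨c, rfl⟩ := turingFunctional_iff.1 hΦ
    refine ⟨c, fun g hg => ?_⟩
    obtain ⟨f, hf, h⟩ := h g hg
    exact ⟨f, hf, fun n => Part.eq_some_iff.1 (h n)⟩
  · rintro ⟨c, h⟩
    refine ⟨eval c, turingFunctional_iff.2 ⟨c, rfl⟩, fun g hg => ?_⟩
    obtain ⟨f, hf, h⟩ := h g hg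
    exact ⟨f, hf, h.eval_eq⟩

/-- `join f g` is `f ⊕ g`: the values of `f` at even places and those of `g` at odd places. -/
def join (f g : ℕ → ℕ) : ℕ → ℕ := fun n => if n % 2 = 0 then f (n / 2) else g (n / 2)

/-- `cons i f` is the sequence `i` followed by `f`. -/
def cons (i : ℕ) (f : ℕ → ℕ) : ℕ → ℕ := fun n => if n = 0 then i else f (n - 1)

/-- `{f ⊕ g : f ∈ A, g ∈ B}`. -/
def joinSet (A B : Set (ℕ → ℕ)) : Set (ℕ → ℕ) := {h | ∃ f ∈ A, ∃ g ∈ B, h = join f g}

/-- `{0⌢f : f ∈ A} ∪ {1⌢g : g ∈ B}`. -/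
def meetSet (A B : Set (ℕ → ℕ)) : Set (ℕ → ℕ) :=
  {h | ∃ f ∈ A, h = cons 0 f} ∪ {h | ∃ g ∈ B, h = cons 1 g}

theorem join_two_mul (f g : ℕ → ℕ) (n : ℕ) : join f g (2 * n) = f n := by
  simp [join]

theorem join_two_mul_add_one (f g : ℕ → ℕ) (n : ℕ) : join f g (2 * n + 1) = g n := by
  have h1 : (2 * n + 1) % 2 = 1 := by omega
  have h2 : (2 * n + 1) / 2 = n := by omega
  simp [join, h1, h2]

@[simp] theorem cons_zero (i : ℕ) (f : ℕ → ℕ) : cons i f 0 = i := rfl

@[simp] theorem cons_succ (i : ℕ) (f : ℕ → ℕ) (n : ℕ) : cons i f (n + 1) = f n := rfl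

theorem eq_join (h : ℕ → ℕ) : h = join (fun n => h (2 * n)) (fun n => h (2 * n + 1)) := by
  funext n
  unfold join
  rcases Nat.mod_two_eq_zero_or_one n with h0 | h1
  · rw [if_pos h0]; congr 1; omega
  · rw [if_neg (by omega)]; congr 1; omega

theorem eq_cons (h : ℕ → ℕ) : h = cons (h 0) (fun n => h (n + 1)) := by
  funext n
  cases n <;> rfl

theorem mem_joinSet {A B : Set (ℕ → ℕ)} {h : ℕ → ℕ} :
    h ∈ joinSet A B ↔ (fun n => h (2 * n)) ∈ A ∧ (fun n => h (2 * n + 1)) ∈ B := by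
  constructor
  · rintro ⟨f, hf, g, hg, rfl⟩
    refine ⟨?_, ?_⟩
    · simpa only [join_two_mul] using hf
    · simpa only [join_two_mul_add_one] using hg
  · rintro ⟨hA, hB⟩
    exact ⟨_, hA, _, hB, eq_join h⟩

theorem mem_meetSet {A B : Set (ℕ → ℕ)} {h : ℕ → ℕ} :
    h ∈ meetSet A B ↔ (h 0 = 0 ∧ (fun n => h (n + 1)) ∈ A) ∨
      (h 0 = 1 ∧ (fun n => h (n + 1)) ∈ B) := by
  constructor
  · rintro (⟨f, hf, rfl⟩ | ⟨g, hg, rfl⟩)
    · exact Or.inl ⟨rfl, hf⟩
    · exact Or.inr ⟨rfl, hg⟩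
  · rintro (⟨h0, hA⟩ | ⟨h1, hB⟩)
    · refine Or.inl ⟨_, hA, ?_⟩
      conv_lhs => rw [eq_cons h, h0]
    · refine Or.inr ⟨_, hB, ?_⟩
      conv_lhs => rw [eq_cons h, h1]

theorem isClosed_joinSet {A B : Set (ℕ → ℕ)} (hA : IsClosed A) (hB : IsClosed B) :
    IsClosed (joinSet A B) := by
  have : joinSet A B = (fun h : ℕ → ℕ => fun n => h (2 * n)) ⁻¹' A ∩
      (fun h : ℕ → ℕ => fun n => h (2 * n + 1)) ⁻¹' B := by
    ext h; exact mem_joinSet
  rw [this]
  exact (hA.preimage (by fun_prop)).inter (hB.preimage (by fun_prop))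

theorem isClosed_meetSet {A B : Set (ℕ → ℕ)} (hA : IsClosed A) (hB : IsClosed B) :
    IsClosed (meetSet A B) := by
  have : meetSet A B =
      ((fun h : ℕ → ℕ => h 0) ⁻¹' {0} ∩ (fun h : ℕ → ℕ => fun n => h (n + 1)) ⁻¹' A) ∪
      ((fun h : ℕ → ℕ => h 0) ⁻¹' {1} ∩ (fun h : ℕ → ℕ => fun n => h (n + 1)) ⁻¹' B) := by
    ext h; exact mem_meetSet
  rw [this]
  refine IsClosed.union ?_ ?_
  · exact ((isClosed_discrete _).preimage (by fun_prop)).inter (hA.preimage (by fun_prop))
  · exact ((isClosed_discrete _).preimage (by fun_prop)).inter (hB.preimage (by fun_prop))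

/-! ### Medvedev reducibility -/

theorem MedvedevLE.refl (A : Set (ℕ → ℕ)) : MedvedevLE A A :=
  medvedevLE_iff.2 ⟨oracle, fun g hg => ⟨g, hg, computes_oracle g⟩⟩

theorem MedvedevLE.trans {A B C : Set (ℕ → ℕ)} (h1 : MedvedevLE A B) (h2 : MedvedevLE B C) :
    MedvedevLE A C := by
  obtain ⟨c, hc⟩ := medvedevLE_iff.1 h1
  obtain ⟨d, hd⟩ := medvedevLE_iff.1 h2
  refine medvedevLE_iff.2 ⟨subst c d, fun g hg => ?_⟩
  obtain ⟨h, hh, h1⟩ := hd g hg
  obtain ⟨k, hk, h2⟩ := hc h hh
  exact ⟨k, hk, h1.trans h2⟩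

theorem MedvedevLE.of_subset {A B : Set (ℕ → ℕ)} (h : B ⊆ A) : MedvedevLE A B :=
  medvedevLE_iff.2 ⟨oracle, fun g hg => ⟨g, h hg, computes_oracle g⟩⟩

/-- A code for the even part of the oracle. -/
theorem exists_even : ∃ e : OCode, ∀ g, Computes e g fun n => g (2 * n) := by
  have h2 : Computable fun n : ℕ => 2 * n :=
    (Primrec.nat_mul.comp (Primrec.const 2) Primrec.id).to_comp
  obtain ⟨e, he⟩ := exists_combine' (F := fun _ x _ => x) h2 h2
    (Computable.fst.comp Computable.snd)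
  exact ⟨e, he⟩

/-- A code for the odd part of the oracle. -/
theorem exists_odd : ∃ e : OCode, ∀ g, Computes e g fun n => g (2 * n + 1) := by
  have h2 : Computable fun n : ℕ => 2 * n + 1 :=
    (Primrec.succ.comp (Primrec.nat_mul.comp (Primrec.const 2) Primrec.id)).to_comp
  obtain ⟨e, he⟩ := exists_combine' (F := fun _ x _ => x) h2 h2
    (Computable.fst.comp Computable.snd)
  exact ⟨e, he⟩

/-- A code for the tail of the oracle. -/
theorem exists_tail : ∃ e : OCode, ∀ g, Computes e g fun n => g (n + 1) := by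
  have h2 : Computable fun n : ℕ => n + 1 := Computable.succ
  obtain ⟨e, he⟩ := exists_combine' (F := fun _ x _ => x) h2 h2
    (Computable.fst.comp Computable.snd)
  exact ⟨e, he⟩

/-- A code for appending an entry in front of the oracle. -/
theorem exists_cons (i : ℕ) : ∃ e : OCode, ∀ g, Computes e g (cons i g) := by
  have h2 : Computable fun n : ℕ => n - 1 :=
    (Primrec.nat_sub.comp Primrec.id (Primrec.const 1)).to_comp
  have hF : Computable fun p : ℕ × ℕ × ℕ => if p.1 = 0 then i else p.2.1 :=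
    (Primrec.ite (Primrec.eq.comp Primrec.fst (Primrec.const 0)) (Primrec.const i)
      (Primrec.fst.comp Primrec.snd)).to_comp
  obtain ⟨e, he⟩ := exists_combine' (F := fun n x _ => if n = 0 then i else x) h2 h2 hF
  exact ⟨e, he⟩

/-- Codes for the join of two computed functions. -/
theorem exists_join (c d : OCode) : ∃ e : OCode, ∀ g h k, Computes c g h → Computes d g k →
    Computes e g (join h k) := by
  have h2 : Computable fun n : ℕ => n / 2 :=
    (Primrec.nat_div.comp Primrec.id (Primrec.const 2)).to_comp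
  have hF : Computable fun p : ℕ × ℕ × ℕ => if p.1 % 2 = 0 then p.2.1 else p.2.2 :=
    (Primrec.ite (Primrec.eq.comp (Primrec.nat_mod.comp Primrec.fst (Primrec.const 2))
      (Primrec.const 0)) (Primrec.fst.comp Primrec.snd) (Primrec.snd.comp Primrec.snd)).to_comp
  exact exists_combine c d (F := fun n x y => if n % 2 = 0 then x else y) h2 h2 hF

theorem le_joinSet_left (A B : Set (ℕ → ℕ)) : MedvedevLE A (joinSet A B) := by
  obtain ⟨e, he⟩ := exists_even
  exact medvedevLE_iff.2 ⟨e, fun g hg => ⟨_, (mem_joinSet.1 hg).1, he g⟩⟩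

theorem le_joinSet_right (A B : Set (ℕ → ℕ)) : MedvedevLE B (joinSet A B) := by
  obtain ⟨e, he⟩ := exists_odd
  exact medvedevLE_iff.2 ⟨e, fun g hg => ⟨_, (mem_joinSet.1 hg).2, he g⟩⟩

theorem joinSet_le {A B C : Set (ℕ → ℕ)} (h1 : MedvedevLE A C) (h2 : MedvedevLE B C) :
    MedvedevLE (joinSet A B) C := by
  obtain ⟨c, hc⟩ := medvedevLE_iff.1 h1
  obtain ⟨d, hd⟩ := medvedevLE_iff.1 h2
  obtain ⟨e, he⟩ := exists_join c d
  refine medvedevLE_iff.2 ⟨e, fun g hg => ?_⟩
  obtain ⟨h, hh, h1⟩ := hc g hg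
  obtain ⟨k, hk, h2⟩ := hd g hg
  exact ⟨_, ⟨h, hh, k, hk, rfl⟩, he g h k h1 h2⟩

theorem meetSet_le_left (A B : Set (ℕ → ℕ)) : MedvedevLE (meetSet A B) A := by
  obtain ⟨e, he⟩ := exists_cons 0
  exact medvedevLE_iff.2 ⟨e, fun g hg => ⟨_, Or.inl ⟨g, hg, rfl⟩, he g⟩⟩

theorem meetSet_le_right (A B : Set (ℕ → ℕ)) : MedvedevLE (meetSet A B) B := by
  obtain ⟨e, he⟩ := exists_cons 1
  exact medvedevLE_iff.2 ⟨e, fun g hg => ⟨_, Or.inr ⟨g, hg, rfl⟩, he g⟩⟩

theorem le_meetSet {A B C : Set (ℕ → ℕ)} (h1 : MedvedevLE C A) (h2 : MedvedevLE C B) :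
    MedvedevLE C (meetSet A B) := by
  obtain ⟨c, hc⟩ := medvedevLE_iff.1 h1
  obtain ⟨d, hd⟩ := medvedevLE_iff.1 h2
  obtain ⟨t, ht⟩ := exists_tail
  obtain ⟨e, he⟩ := exists_cond 0 (subst c t) (subst d t)
  refine medvedevLE_iff.2 ⟨e, fun g hg => ?_⟩
  rcases mem_meetSet.1 hg with ⟨h0, hA⟩ | ⟨h1, hB⟩
  · obtain ⟨h, hh, h1⟩ := hc _ hA
    exact ⟨h, hh, fun n => by rw [(he g).1 h0]; exact ((ht g).trans h1) n⟩
  · obtain ⟨h, hh, h2⟩ := hd _ hB
    exact ⟨h, hh, fun n => by rw [(he g).2 (by omega)]; exact ((ht g).trans h2) n⟩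

/-! ### The two lattices -/

/-- A space of sequences, closed under `⊕` and under adding `0` or `1` in front. This is only used
for the two spaces `baire` and `cantor` below. -/
structure Ambient where
  /-- The points of the space. -/
  carrier : Set (ℕ → ℕ)
  join_mem : ∀ f ∈ carrier, ∀ g ∈ carrier, join f g ∈ carrier
  cons_zero_mem : ∀ f ∈ carrier, cons 0 f ∈ carrier
  cons_one_mem : ∀ f ∈ carrier, cons 1 f ∈ carrier

/-- Baire space `ω^ω`. -/
def baire : Ambient where
  carrier := Set.univ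
  join_mem := fun _ _ _ _ => trivial
  cons_zero_mem := fun _ _ => trivial
  cons_one_mem := fun _ _ => trivial

/-- Cantor space `2^ω ⊆ ω^ω`. -/
def cantor : Ambient where
  carrier := {f | ∀ n, f n < 2}
  join_mem := fun f hf g hg n => by
    unfold join
    split
    · exact hf _
    · exact hg _
  cons_zero_mem := fun f hf n => by
    cases n
    · exact Nat.zero_lt_two
    · exact hf _
  cons_one_mem := fun f hf n => by
    cases n
    · exact Nat.one_lt_two
    · exact hf _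

/-- The nonempty closed subsets of the space `X`. (Both `ω^ω` and `2^ω` are closed in `ω^ω`, so
closed in `X` means closed in `ω^ω`, the product of discrete spaces.) -/
structure ClosedProblem (X : Ambient) where
  /-- The set itself. -/
  set : Set (ℕ → ℕ)
  subset : set ⊆ X.carrier
  nonempty : set.Nonempty
  isClosed : IsClosed set

variable {X : Ambient}

/-- Closed problems are ordered by Medvedev reducibility. -/
instance : Preorder (ClosedProblem X) where
  le A B := MedvedevLE A.set B.set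
  le_refl A := MedvedevLE.refl A.set
  le_trans _ _ _ := MedvedevLE.trans

/-- The representative of the join of two degrees. -/
def ClosedProblem.join (A B : ClosedProblem X) : ClosedProblem X :=
  ⟨joinSet A.set B.set, by
    rintro _ ⟨f, hf, g, hg, rfl⟩
    exact X.join_mem f (A.subset hf) g (B.subset hg), by
    obtain ⟨f, hf⟩ := A.nonempty
    obtain ⟨g, hg⟩ := B.nonempty
    exact ⟨_, f, hf, g, hg, rfl⟩, isClosed_joinSet A.isClosed B.isClosed⟩

/-- The representative of the meet of two degrees. -/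
def ClosedProblem.meet (A B : ClosedProblem X) : ClosedProblem X :=
  ⟨meetSet A.set B.set, by
    rintro _ (⟨f, hf, rfl⟩ | ⟨f, hf, rfl⟩)
    · exact X.cons_zero_mem f (A.subset hf)
    · exact X.cons_one_mem f (B.subset hf), by
    obtain ⟨f, hf⟩ := A.nonempty
    exact ⟨_, Or.inl ⟨f, hf, rfl⟩⟩, isClosed_meetSet A.isClosed B.isClosed⟩

/-- The Medvedev degrees of nonempty closed subsets of `X`: closed problems modulo
Medvedev equivalence. -/
def MedvedevDegrees (X : Ambient) : Type :=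
  Antisymmetrization (ClosedProblem X) (· ≤ ·)

instance : PartialOrder (MedvedevDegrees X) :=
  inferInstanceAs (PartialOrder (Antisymmetrization (ClosedProblem X) (· ≤ ·)))

/-- The degree of a closed problem. -/
def deg (A : ClosedProblem X) : MedvedevDegrees X := toAntisymmetrization (· ≤ ·) A

theorem deg_le_deg {A B : ClosedProblem X} : deg A ≤ deg B ↔ MedvedevLE A.set B.set :=
  toAntisymmetrization_le_toAntisymmetrization_iff

theorem exists_deg_eq (a : MedvedevDegrees X) : ∃ A : ClosedProblem X, deg A = a :=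
  Quotient.exists_rep a

theorem joinSet_mono {A B C D : Set (ℕ → ℕ)} (h1 : MedvedevLE A C) (h2 : MedvedevLE B D) :
    MedvedevLE (joinSet A B) (joinSet C D) :=
  joinSet_le (h1.trans (le_joinSet_left C D)) (h2.trans (le_joinSet_right C D))

theorem meetSet_mono {A B C D : Set (ℕ → ℕ)} (h1 : MedvedevLE A C) (h2 : MedvedevLE B D) :
    MedvedevLE (meetSet A B) (meetSet C D) :=
  le_meetSet ((meetSet_le_left A B).trans h1) ((meetSet_le_right A B).trans h2)

/-- The lattice of Medvedev degrees of nonempty closed subsets of `X`: the join of the degrees of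
`A`, `B` is the degree of `{f ⊕ g : f ∈ A, g ∈ B}`, and their meet is the degree of
`{0⌢f : f ∈ A} ∪ {1⌢g : g ∈ B}`. -/
instance : Lattice (MedvedevDegrees X) where
  sup := Quotient.map₂ ClosedProblem.join fun _ _ h _ _ h' =>
    ⟨joinSet_mono h.1 h'.1, joinSet_mono h.2 h'.2⟩
  inf := Quotient.map₂ ClosedProblem.meet fun _ _ h _ _ h' =>
    ⟨meetSet_mono h.1 h'.1, meetSet_mono h.2 h'.2⟩
  le_sup_left := by
    rintro ⟨A⟩ ⟨B⟩
    exact deg_le_deg.2 (le_joinSet_left A.set B.set)
  le_sup_right := by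
    rintro ⟨A⟩ ⟨B⟩
    exact deg_le_deg.2 (le_joinSet_right A.set B.set)
  sup_le := by
    rintro ⟨A⟩ ⟨B⟩ ⟨C⟩ h1 h2
    exact deg_le_deg.2 (joinSet_le (deg_le_deg.1 h1) (deg_le_deg.1 h2))
  inf_le_left := by
    rintro ⟨A⟩ ⟨B⟩
    exact deg_le_deg.2 (meetSet_le_left A.set B.set)
  inf_le_right := by
    rintro ⟨A⟩ ⟨B⟩
    exact deg_le_deg.2 (meetSet_le_right A.set B.set)
  le_inf := by
    rintro ⟨A⟩ ⟨B⟩ ⟨C⟩ h1 h2
    exact deg_le_deg.2 (le_meetSet (deg_le_deg.1 h1) (deg_le_deg.1 h2))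

theorem deg_sup_deg (A B : ClosedProblem X) : deg A ⊔ deg B = deg (A.join B) := rfl

theorem deg_inf_deg (A B : ClosedProblem X) : deg A ⊓ deg B = deg (A.meet B) := rfl

/-! ### The language of lattices -/

/-- The function symbols of the language of lattices: two binary symbols. -/
inductive LatticeFunc : ℕ → Type
  | sup : LatticeFunc 2
  | inf : LatticeFunc 2

/-- The first-order language of lattices. -/
def latticeLanguage : FirstOrder.Language := ⟨LatticeFunc, fun _ => Empty⟩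

/-- Every lattice is a structure for the language of lattices. -/
instance latticeStructure (M : Type*) [Lattice M] : latticeLanguage.Structure M where
  funMap := fun {n} (f : LatticeFunc n) => match n, f with
    | _, .sup => fun x => x 0 ⊔ x 1
    | _, .inf => fun x => x 0 ⊓ x 1
  RelMap := fun {_} (r : Empty) => r.elim

end Pool.Agent.Lib.MP_ed0562_lc
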