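import Pool.Agent.Lib.MP_ed0562_lc.Degrees

/-!
# The join of two meet-prime degrees

In the Medvedev degrees of closed subsets of Cantor space the join of two meet-prime degrees is
meet-prime; in those of closed subsets of Baire space it need not be.
-/

namespace Pool.Agent.Lib.MP_ed0562_lc

open OCode

/-- An element `a` of a lattice is meet-prime if `e ⊓ f ≤ a` implies `e ≤ a` or `f ≤ a`. -/
def MeetPrime {M : Type*} [Lattice M] (a : M) : Prop := ∀ e f : M, e ⊓ f ≤ a → e ≤ a ∨ f ≤ a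

/-- The sequences which agree with `s` below `m`. -/
def cyl (s : ℕ → ℕ) (m : ℕ) : Set (ℕ → ℕ) := {x | ∀ i < m, x i = s i}

theorem mem_cyl_self (s : ℕ → ℕ) (m : ℕ) : s ∈ cyl s m := fun _ _ => rfl

theorem isOpen_cyl (s : ℕ → ℕ) (m : ℕ) : IsOpen (cyl s m) := by
  have : cyl s m = ⋂ i ∈ Finset.range m, (fun x : ℕ → ℕ => x i) ⁻¹' {s i} := by
    ext x; simp [cyl]
  rw [this]
  exact isOpen_biInter_finset fun i _ => (isOpen_discrete _).preimage (continuous_apply i)

theorem isClosed_cyl (s : ℕ → ℕ) (m : ℕ) : IsClosed (cyl s m) := by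
  have : cyl s m = ⋂ i ∈ Finset.range m, (fun x : ℕ → ℕ => x i) ⁻¹' {s i} := by
    ext x; simp [cyl]
  rw [this]
  exact isClosed_biInter fun i _ => (isClosed_discrete _).preimage (continuous_apply i)

theorem exists_cyl_subset {W : Set (ℕ → ℕ)} (hW : IsOpen W) {x : ℕ → ℕ} (hx : x ∈ W) :
    ∃ m, cyl x m ⊆ W := by
  obtain ⟨I, u, h1, h2⟩ := isOpen_pi_iff.1 hW x hx
  refine ⟨I.sup id + 1, fun y hy => h2 fun i hi => ?_⟩
  rw [hy i (Nat.lt_succ_of_le (Finset.le_sup (f := id) hi))]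
  exact (h1 i hi).2

theorem isOpen_of_cyl {W : Set (ℕ → ℕ)} (h : ∀ x ∈ W, ∃ m, cyl x m ⊆ W) : IsOpen W := by
  rw [isOpen_iff_forall_mem_open]
  intro x hx
  obtain ⟨m, hm⟩ := h x hx
  exact ⟨cyl x m, hm, isOpen_cyl x m, mem_cyl_self x m⟩

/-! ### Cantor space -/

/-- In the compact case, every meet-prime problem has a point all of whose neighbourhoods in the
problem are reducible to the whole problem. -/
theorem exists_point (A : ClosedProblem cantor) (hA : MeetPrime (deg A)) :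
    ∃ a ∈ A.set, ∀ m, MedvedevLE (A.set ∩ cyl a m) A.set := by
  -- one step of the construction
  have step : ∀ (m : ℕ) (s : ℕ → ℕ),
      ((A.set ∩ cyl s m).Nonempty ∧ MedvedevLE (A.set ∩ cyl s m) A.set) →
      ∃ s' : ℕ → ℕ, (∀ i < m, s' i = s i) ∧
        ((A.set ∩ cyl s' (m + 1)).Nonempty ∧ MedvedevLE (A.set ∩ cyl s' (m + 1)) A.set) := by
    rintro m s ⟨hne, hle⟩
    have hcl : ∀ j : ℕ, IsClosed (A.set ∩ cyl (Function.update s m j) (m + 1)) := fun j =>
      A.isClosed.inter (isClosed_cyl _ _)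
    have hmem : ∀ (j : ℕ) (x : ℕ → ℕ),
        x ∈ cyl (Function.update s m j) (m + 1) ↔ x ∈ cyl s m ∧ x m = j := by
      intro j x
      constructor
      · intro h
        refine ⟨fun i hi => ?_, ?_⟩
        · have := h i (Nat.lt_succ_of_lt hi)
          rwa [Function.update_of_ne (Nat.ne_of_lt hi)] at this
        · have := h m (Nat.lt_succ_self m)
          rwa [Function.update_self] at this
      · rintro ⟨h1, h2⟩ i hi
        rcases Nat.lt_succ_iff_lt_or_eq.1 hi with h | rfl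
        · rw [Function.update_of_ne (Nat.ne_of_lt h)]; exact h1 i h
        · rw [Function.update_self]; exact h2
    have hagree : ∀ (j : ℕ), ∀ i < m, Function.update s m j i = s i := fun j i hi =>
      Function.update_of_ne (Nat.ne_of_lt hi) _ _
    have hcases : ∀ x ∈ A.set, x m = 0 ∨ x m = 1 := fun x hx => by
      have : x m < 2 := A.subset hx m
      omega
    by_cases h0 : (A.set ∩ cyl (Function.update s m 0) (m + 1)).Nonempty
    · by_cases h1 : (A.set ∩ cyl (Function.update s m 1) (m + 1)).Nonempty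
      · -- both halves are nonempty
        let A0 : ClosedProblem cantor := ⟨_, fun x hx => A.subset hx.1, h0, hcl 0⟩
        let A1 : ClosedProblem cantor := ⟨_, fun x hx => A.subset hx.1, h1, hcl 1⟩
        have hmeet : MedvedevLE (meetSet A0.set A1.set) (A.set ∩ cyl s m) := by
          have h2 : Computable fun n : ℕ => n - 1 :=
            (Primrec.nat_sub.comp Primrec.id (Primrec.const 1)).to_comp
          have h3 : Computable fun _ : ℕ => m := Computable.const m
          have hF : Computable fun p : ℕ × ℕ × ℕ => if p.1 = 0 then p.2.2 else p.2.1 :=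
            (Primrec.ite (Primrec.eq.comp Primrec.fst (Primrec.const 0))
              (Primrec.snd.comp Primrec.snd) (Primrec.fst.comp Primrec.snd)).to_comp
          obtain ⟨e, he⟩ := exists_combine' (F := fun n x y => if n = 0 then y else x) h2 h3 hF
          refine medvedevLE_iff.2 ⟨e, fun g hg => ⟨_, ?_, he g⟩⟩
          rw [mem_meetSet]
          rcases hcases g hg.1 with h | h
          · exact Or.inl ⟨by simpa using h, hg.1, (hmem 0 _).2 ⟨hg.2, h⟩⟩
          · exact Or.inr ⟨by simpa using h, hg.1, (hmem 1 _).2 ⟨hg.2, h⟩⟩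
        rcases hA (deg A0) (deg A1) (deg_le_deg.2 (hmeet.trans hle)) with h | h
        · exact ⟨_, hagree 0, h0, deg_le_deg.1 h⟩
        · exact ⟨_, hagree 1, h1, deg_le_deg.1 h⟩
      · refine ⟨_, hagree 0, h0, MedvedevLE.trans (MedvedevLE.of_subset fun x hx => ?_) hle⟩
        refine ⟨hx.1, (hmem 0 x).2 ⟨hx.2, ?_⟩⟩
        rcases hcases x hx.1 with h | h
        · exact h
        · exact absurd ⟨x, hx.1, (hmem 1 x).2 ⟨hx.2, h⟩⟩ h1
    · have key : A.set ∩ cyl s m ⊆ A.set ∩ cyl (Function.update s m 1) (m + 1) := fun x hx => by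
        refine ⟨hx.1, (hmem 1 x).2 ⟨hx.2, ?_⟩⟩
        rcases hcases x hx.1 with h | h
        · exact absurd ⟨x, hx.1, (hmem 0 x).2 ⟨hx.2, h⟩⟩ h0
        · exact h
      exact ⟨_, hagree 1, hne.mono key, (MedvedevLE.of_subset key).trans hle⟩
  choose! nxt hagree hnxt using step
  have hbase : (A.set ∩ cyl (fun _ => 0) 0).Nonempty ∧
      MedvedevLE (A.set ∩ cyl (fun _ => 0) 0) A.set := by
    have : A.set ∩ cyl (fun _ => 0) 0 = A.set := by
      ext x; simp [cyl]
    rw [this]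
    exact ⟨A.nonempty, MedvedevLE.refl _⟩
  let s : ℕ → ℕ → ℕ := fun m => Nat.rec (fun _ => 0) (fun m s => nxt m s) m
  have hs : ∀ m, (A.set ∩ cyl (s m) m).Nonempty ∧ MedvedevLE (A.set ∩ cyl (s m) m) A.set := by
    intro m
    induction m with
    | zero => exact hbase
    | succ m ih => exact hnxt m (s m) ih
  have hstep : ∀ m, ∀ i < m, s (m + 1) i = s m i := fun m => hagree m (s m) (hs m)
  have hlim : ∀ m, ∀ i < m, s m i = s (i + 1) i := by
    intro m
    induction m with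
    | zero => intro i hi; exact absurd hi (Nat.not_lt_zero i)
    | succ m ih =>
      intro i hi
      rcases Nat.lt_succ_iff_lt_or_eq.1 hi with h | rfl
      · rw [hstep m i h, ih i h]
      · rfl
  have hcyl : ∀ m, cyl (fun i => s (i + 1) i) m = cyl (s m) m := by
    intro m
    ext x
    constructor
    · intro h i hi; rw [h i hi, hlim m i hi]
    · intro h i hi; rw [h i hi, hlim m i hi]
  refine ⟨fun i => s (i + 1) i, ?_, fun m => by rw [hcyl]; exact (hs m).2⟩
  by_contra hcon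
  obtain ⟨m, hm⟩ := exists_cyl_subset A.isClosed.isOpen_compl hcon
  obtain ⟨x, hx, hx'⟩ := (hs m).1
  rw [← hcyl m] at hx'
  exact hm hx' hx

/-- In the lattice of Medvedev degrees of closed subsets of Cantor space, the join of two
meet-prime degrees is meet-prime. -/
theorem cantor_meetPrime_sup (a b : MedvedevDegrees cantor) (ha : MeetPrime a)
    (hb : MeetPrime b) : MeetPrime (a ⊔ b) := by
  obtain ⟨A, rfl⟩ := exists_deg_eq a
  obtain ⟨B, rfl⟩ := exists_deg_eq b
  intro e f hef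
  obtain ⟨E, rfl⟩ := exists_deg_eq e
  obtain ⟨F, rfl⟩ := exists_deg_eq f
  rw [deg_sup_deg, deg_inf_deg] at hef
  rw [deg_sup_deg]
  obtain ⟨c, hc⟩ := medvedevLE_iff.1 (deg_le_deg.1 hef)
  obtain ⟨x, hx, hAx⟩ := exists_point A ha
  obtain ⟨y, hy, hBy⟩ := exists_point B hb
  obtain ⟨h, hh, hch⟩ := hc (join x y) ⟨x, hx, y, hy, rfl⟩
  obtain ⟨u, hu⟩ := exists_use (hch 0)
  obtain ⟨t, ht⟩ := exists_tail
  -- near the point, the decision is constant
  have key : ∀ g ∈ joinSet (A.set ∩ cyl x u) (B.set ∩ cyl y u),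
      ∃ k ∈ meetSet E.set F.set, Computes c g k ∧ k 0 = h 0 := by
    rintro g ⟨x', hx', y', hy', rfl⟩
    obtain ⟨k, hk, hck⟩ := hc (join x' y') ⟨x', hx'.1, y', hy'.1, rfl⟩
    refine ⟨k, hk, hck, ?_⟩
    refine Part.mem_unique (hck 0) (hu _ fun i hi => ?_)
    unfold join
    have hi2 : i / 2 < u := lt_of_le_of_lt (Nat.div_le_self i 2) hi
    rw [hx'.2 _ hi2, hy'.2 _ hi2]
  have hsub : MedvedevLE (joinSet (A.set ∩ cyl x u) (B.set ∩ cyl y u)) (joinSet A.set B.set) :=
    joinSet_mono (hAx u) (hBy u)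
  rcases mem_meetSet.1 hh with ⟨h0, -⟩ | ⟨h1, -⟩
  · left
    refine deg_le_deg.2 (MedvedevLE.trans ?_ hsub)
    refine medvedevLE_iff.2 ⟨subst t c, fun g hg => ?_⟩
    obtain ⟨k, hk, hck, hk0⟩ := key g hg
    rcases mem_meetSet.1 hk with ⟨-, hE⟩ | ⟨h1, -⟩
    · exact ⟨_, hE, hck.trans (ht k)⟩
    · rw [hk0, h0] at h1; exact absurd h1 (by norm_num)
  · right
    refine deg_le_deg.2 (MedvedevLE.trans ?_ hsub)
    refine medvedevLE_iff.2 ⟨subst t c, fun g hg => ?_⟩
    obtain ⟨k, hk, hck, hk0⟩ := key g hg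
    rcases mem_meetSet.1 hk with ⟨h0, -⟩ | ⟨-, hF⟩
    · rw [hk0, h1] at h0; exact absurd h0 (by norm_num)
    · exact ⟨_, hF, hck.trans (ht k)⟩

/-! ### Baire space: a strictly descending sequence of Turing degrees -/

/-- The rows of `G` with index at least `n`. -/
def cut (n : ℕ) (G : ℕ → ℕ) : ℕ → ℕ := fun p => if p.unpair.1 < n then 0 else G p

theorem isOpen_converges (c : OCode) (m n v : ℕ) :
    IsOpen {G : ℕ → ℕ | v ∈ eval c (cut m G) n} := by
  refine isOpen_of_cyl fun G hG => ?_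
  obtain ⟨u, hu⟩ := exists_use hG
  refine ⟨u, fun G' hG' => hu _ fun i hi => ?_⟩
  unfold cut
  rw [hG' i hi]

theorem exists_generic : ∃ G : ℕ → ℕ, ∀ (c : OCode) (m : ℕ),
    ¬ Computes c (cut (m + 1) G) (cut m G) := by
  let O1 : OCode × ℕ → Set (ℕ → ℕ) := fun q =>
    ⋃ j, ⋃ v, ({G | v ∈ eval q.1 (cut (q.2 + 1) G) (Nat.pair q.2 j)} ∩
      {G | G (Nat.pair q.2 j) ≠ v})
  let O2 : OCode × ℕ → Set (ℕ → ℕ) := fun q =>
    interior {G | ∃ n, ∀ v, v ∉ eval q.1 (cut (q.2 + 1) G) n}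
  have hopen : ∀ q, IsOpen (O1 q ∪ O2 q) := by
    intro q
    refine IsOpen.union ?_ isOpen_interior
    refine isOpen_iUnion fun j => isOpen_iUnion fun v => IsOpen.inter (isOpen_converges _ _ _ _) ?_
    have h : {G : ℕ → ℕ | G (Nat.pair q.2 j) ≠ v} =
        (fun G : ℕ → ℕ => G (Nat.pair q.2 j)) ⁻¹' {v}ᶜ := rfl
    rw [h]
    exact (isOpen_discrete ({v}ᶜ : Set ℕ)).preimage (by fun_prop)
  have hdense : ∀ q, Dense (O1 q ∪ O2 q) := by
    rintro ⟨c, m⟩
    rw [dense_iff_inter_open]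
    rintro W hW ⟨G0, hG0⟩
    obtain ⟨N, hN⟩ := exists_cyl_subset hW hG0
    by_cases h : ∃ G' ∈ cyl G0 N, ∃ v, v ∈ eval c (cut (m + 1) G') (Nat.pair m N)
    · obtain ⟨G', hG', v, hv⟩ := h
      have hNle : N ≤ Nat.pair m N := Nat.right_le_pair m N
      refine ⟨Function.update G' (Nat.pair m N) (v + 1), hN fun i hi => ?_, Or.inl ?_⟩
      · rw [Function.update_of_ne (by omega)]; exact hG' i hi
      · refine Set.mem_iUnion.2 ⟨N, Set.mem_iUnion.2 ⟨v, ?_, ?_⟩⟩
        · have : cut (m + 1) (Function.update G' (Nat.pair m N) (v + 1)) = cut (m + 1) G' := by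
            funext p
            unfold cut
            by_cases hp : p.unpair.1 < m + 1
            · simp [hp]
            · rw [if_neg hp, if_neg hp, Function.update_of_ne]
              rintro rfl
              simp at hp
          show v ∈ eval c (cut (m + 1) (Function.update G' (Nat.pair m N) (v + 1))) _
          rw [this]; exact hv
        · show Function.update G' (Nat.pair m N) (v + 1) (Nat.pair m N) ≠ v
          rw [Function.update_self]; omega
    · refine ⟨G0, hG0, Or.inr ?_⟩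
      refine mem_interior.2 ⟨cyl G0 N, fun G' hG' => ⟨Nat.pair m N, fun v hv => ?_⟩,
        isOpen_cyl G0 N, mem_cyl_self G0 N⟩
      exact h ⟨G', hG', v, hv⟩
  obtain ⟨G, hG⟩ := (dense_iInter_of_isOpen hopen hdense).nonempty
  refine ⟨G, fun c m hc => ?_⟩
  rcases Set.mem_iInter.1 hG (c, m) with h | h
  · obtain ⟨j, hj⟩ := Set.mem_iUnion.1 h
    obtain ⟨v, hv, hne⟩ := Set.mem_iUnion.1 hj
    have h1 : cut m G (Nat.pair m j) = G (Nat.pair m j) := by simp [cut]
    have h2 := Part.mem_unique (hc (Nat.pair m j)) hv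
    exact hne (by rw [← h1]; exact h2)
  · obtain ⟨n, hn⟩ := interior_subset h
    exact hn _ (hc n)

/-- The element `n⌢(rows of G from n on)`. -/
def elt (G : ℕ → ℕ) (n : ℕ) : ℕ → ℕ := cons n (cut n G)

@[simp] theorem elt_zero (G : ℕ → ℕ) (n : ℕ) : elt G n 0 = n := rfl

theorem computable_if_unpair (m : ℕ) :
    Computable fun p : ℕ × ℕ × ℕ => if p.1.unpair.1 < m then 0 else p.2.1 :=
  (Primrec.ite (Primrec.nat_lt.comp (Primrec.fst.comp (Primrec.unpair.comp Primrec.fst))
    (Primrec.const m)) (Primrec.const 0) (Primrec.fst.comp Primrec.snd)).to_comp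

theorem exists_cut_cut (m : ℕ) : ∃ c : OCode, ∀ (G : ℕ → ℕ) (n : ℕ), n ≤ m →
    Computes c (cut n G) (cut m G) := by
  obtain ⟨c, hc⟩ := exists_combine' (F := fun k x _ => if k.unpair.1 < m then 0 else x)
    Computable.id Computable.id (computable_if_unpair m)
  refine ⟨c, fun G n hn k => ?_⟩
  have h := hc (cut n G) k
  have : (if k.unpair.1 < m then 0 else cut n G (id k)) = cut m G k := by
    unfold cut
    by_cases hk : k.unpair.1 < m
    · simp [hk]
    · have : ¬ k.unpair.1 < n := by omega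
      simp [hk, this]
  rw [← this]; exact h

theorem exists_cut_elt (m : ℕ) : ∃ c : OCode, ∀ (G : ℕ → ℕ) (n : ℕ), n ≤ m →
    Computes c (cut n G) (elt G m) := by
  obtain ⟨c, hc⟩ := exists_cut_cut m
  obtain ⟨d, hd⟩ := exists_cons m
  exact ⟨subst d c, fun G n hn => (hc G n hn).trans (hd _)⟩

theorem exists_elt_cut : ∃ c : OCode, ∀ (G : ℕ → ℕ) (n : ℕ), Computes c (elt G n) (cut n G) := by
  obtain ⟨c, hc⟩ := exists_tail
  exact ⟨c, fun G n => hc (elt G n)⟩

/-- The set of all `elt G n` with `n ∈ R`. -/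
def eltSet (G : ℕ → ℕ) (R : Set ℕ) : Set (ℕ → ℕ) := {f | ∃ n ∈ R, f = elt G n}

theorem isClosed_eltSet (G : ℕ → ℕ) (R : Set ℕ) : IsClosed (eltSet G R) := by
  have : eltSet G R = (fun f : ℕ → ℕ => f 0) ⁻¹' R ∩ {f : ℕ → ℕ | f = elt G (f 0)} := by
    ext f
    constructor
    · rintro ⟨n, hn, rfl⟩
      exact ⟨hn, rfl⟩
    · rintro ⟨h1, h2⟩
      exact ⟨f 0, h1, h2⟩
  rw [this]
  refine ((isClosed_discrete R).preimage (continuous_apply 0)).inter (isClosed_eq continuous_id ?_)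
  have h : Continuous (elt G) := continuous_of_discreteTopology
  exact h.comp (continuous_apply 0)

/-- The closed problem `eltSet G R` for nonempty `R`. -/
def eltProblem (G : ℕ → ℕ) (R : Set ℕ) (hR : R.Nonempty) : ClosedProblem baire :=
  ⟨eltSet G R, fun _ _ => trivial, by
    obtain ⟨n, hn⟩ := hR
    exact ⟨elt G n, n, hn, rfl⟩, isClosed_eltSet G R⟩

/-- If `R` is cohesive for all decision procedures, `eltSet G R` is meet-prime. -/
theorem eltProblem_meetPrime (G : ℕ → ℕ) (R : Set ℕ) (hR : R.Nonempty)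
    (hinf : ∀ N, ∃ n ∈ R, N ≤ n)
    (hcoh : ∀ c : OCode, ∃ N, (∀ n ∈ R, N ≤ n → 0 ∈ eval c (elt G n) 0) ∨
      (∀ n ∈ R, N ≤ n → 0 ∉ eval c (elt G n) 0)) :
    MeetPrime (deg (eltProblem G R hR)) := by
  intro e f hef
  obtain ⟨E, rfl⟩ := exists_deg_eq e
  obtain ⟨F, rfl⟩ := exists_deg_eq f
  rw [deg_inf_deg] at hef
  obtain ⟨c, hc⟩ := medvedevLE_iff.1 (deg_le_deg.1 hef)
  obtain ⟨t, ht⟩ := exists_tail
  obtain ⟨N, hN⟩ := hcoh c
  obtain ⟨M, hMR, hNM⟩ := hinf N
  -- a reduction of the whole set to the part above `N`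
  obtain ⟨a, ha⟩ := exists_tail
  obtain ⟨b, hb⟩ := exists_cut_elt M
  -- test: replace the first entry by 0 if it is below N and by 1 otherwise
  have hw : ∃ w : OCode, ∀ g ∈ eltSet G R, ∃ g' : ℕ → ℕ, Computes w g g' ∧
      ∃ n ∈ R, N ≤ n ∧ g' = elt G n := by
    have h2 : Computable fun n : ℕ => n - 1 :=
      (Primrec.nat_sub.comp Primrec.id (Primrec.const 1)).to_comp
    have h3 : Computable fun _ : ℕ => 0 := Computable.const 0
    have hF : Computable fun p : ℕ × ℕ × ℕ =>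
        if p.1 = 0 then (if p.2.2 < N then 0 else 1) else p.2.1 :=
      (Primrec.ite (Primrec.eq.comp Primrec.fst (Primrec.const 0))
        (Primrec.ite (Primrec.nat_lt.comp (Primrec.snd.comp Primrec.snd) (Primrec.const N))
          (Primrec.const 0) (Primrec.const 1)) (Primrec.fst.comp Primrec.snd)).to_comp
    obtain ⟨p, hp⟩ := exists_combine' (F := fun n x y => if n = 0 then (if y < N then 0 else 1)
      else x) h2 h3 hF
    obtain ⟨q, hq⟩ := exists_cond 0 (subst b (subst a a)) a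
    refine ⟨subst q p, ?_⟩
    rintro g ⟨n, hn, rfl⟩
    -- the intermediate sequence
    let g1 : ℕ → ℕ := fun k => if k = 0 then (if elt G n 0 < N then 0 else 1) else elt G n (k - 1)
    have hg1 : Computes p (elt G n) g1 := hp (elt G n)
    have hg1' : (fun k => g1 (k + 1)) = elt G n := by
      funext k; rfl
    by_cases hnN : n < N
    · refine ⟨elt G M, hg1.trans fun k => ?_, M, hMR, hNM, rfl⟩
      have h0 : g1 0 = 0 := by simp [g1, hnN]
      rw [(hq g1).1 h0]
      have h1 : Computes a g1 (elt G n) := by rw [← hg1']; exact ha g1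
      have h2 : Computes (subst a a) g1 (cut n G) := h1.trans (ha (elt G n))
      exact (h2.trans (hb G n (by omega))) k
    · refine ⟨elt G n, hg1.trans fun k => ?_, n, hn, by omega, rfl⟩
      have h0 : g1 0 ≠ 0 := by simp [g1, hnN]
      rw [(hq g1).2 h0]
      have h1 : Computes a g1 (elt G n) := by rw [← hg1']; exact ha g1
      exact h1 k
  obtain ⟨w, hw⟩ := hw
  have key : ∀ g ∈ eltSet G R, ∃ n ∈ R, N ≤ n ∧ ∃ k ∈ meetSet E.set F.set,
      Computes (subst c w) g k ∧ k 0 ∈ eval c (elt G n) 0 := by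
    intro g hg
    obtain ⟨g', hg', n, hn, hNn, rfl⟩ := hw g hg
    obtain ⟨k, hk, hck⟩ := hc (elt G n) ⟨n, hn, rfl⟩
    exact ⟨n, hn, hNn, k, hk, hg'.trans hck, hck 0⟩
  rcases hN with hN | hN
  · left
    refine deg_le_deg.2 (medvedevLE_iff.2 ⟨subst t (subst c w), fun g hg => ?_⟩)
    obtain ⟨n, hn, hNn, k, hk, hck, hk0⟩ := key g hg
    have h0 : k 0 = 0 := Part.mem_unique hk0 (hN n hn hNn)
    rcases mem_meetSet.1 hk with ⟨-, hE⟩ | ⟨h1, -⟩
    · exact ⟨_, hE, hck.trans (ht k)⟩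
    · rw [h0] at h1; exact absurd h1 (by norm_num)
  · right
    refine deg_le_deg.2 (medvedevLE_iff.2 ⟨subst t (subst c w), fun g hg => ?_⟩)
    obtain ⟨n, hn, hNn, k, hk, hck, hk0⟩ := key g hg
    rcases mem_meetSet.1 hk with ⟨h0, -⟩ | ⟨-, hF⟩
    · rw [h0] at hk0; exact absurd hk0 (hN n hn hNn)
    · exact ⟨_, hF, hck.trans (ht k)⟩

/-- The sparse cohesive sequence. -/
theorem exists_sequence (G : ℕ → ℕ) (e : ℕ → OCode) : ∃ a : ℕ → ℕ, StrictMono a ∧
    (∀ i, (∀ k, i ≤ k → 0 ∈ eval (e i) (elt G (a k)) 0) ∨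
      (∀ k, i ≤ k → 0 ∉ eval (e i) (elt G (a k)) 0)) ∧
    ∀ k, ∀ i ≤ a k, ∀ p ≤ a k, ∀ q ≤ a k, ∀ l < 2, ∀ v,
      v ∈ eval (e i) (join (elt G p) (elt G q)) l → v < a (k + 1) := by
  classical
  -- a bound for finitely many values
  have hw : ∀ i p q l : ℕ, ∃ w, ∀ v, v ∈ eval (e i) (join (elt G p) (elt G q)) l → v ≤ w := by
    intro i p q l
    by_cases h : ∃ v, v ∈ eval (e i) (join (elt G p) (elt G q)) l
    · obtain ⟨v, hv⟩ := h
      exact ⟨v, fun v' hv' => le_of_eq (Part.mem_unique hv' hv)⟩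
    · exact ⟨0, fun v hv => absurd ⟨v, hv⟩ h⟩
  choose w hw using hw
  let b : ℕ → ℕ := fun n => (Finset.range (n + 1) ×ˢ Finset.range (n + 1) ×ˢ
    Finset.range (n + 1) ×ˢ Finset.range 2).sup fun t => w t.1 t.2.1 t.2.2.1 t.2.2.2
  have hb : ∀ n i p q l, i ≤ n → p ≤ n → q ≤ n → l < 2 → ∀ v,
      v ∈ eval (e i) (join (elt G p) (elt G q)) l → v ≤ b n := by
    intro n i p q l hi hp hq hl v hv
    refine (hw i p q l v hv).trans ?_
    exact Finset.le_sup (f := fun t : ℕ × ℕ × ℕ × ℕ => w t.1 t.2.1 t.2.2.1 t.2.2.2)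
      (b := (i, p, q, l)) (by simp; omega)
  -- the ultrafilter decisions
  let U : Ultrafilter ℕ := Filter.hyperfilter ℕ
  let Q : ℕ → Set ℕ := fun i =>
    if {n | 0 ∈ eval (e i) (elt G n) 0} ∈ U then {n | 0 ∈ eval (e i) (elt G n) 0}
    else {n | 0 ∈ eval (e i) (elt G n) 0}ᶜ
  have hQ : ∀ i, Q i ∈ U := by
    intro i
    by_cases h : {n | 0 ∈ eval (e i) (elt G n) 0} ∈ U
    · simp only [Q, if_pos h]; exact h
    · simp only [Q, if_neg h]; exact Ultrafilter.compl_mem_iff_notMem.2 h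
  have hnext : ∀ k N : ℕ, ∃ n, N < n ∧ ∀ i ≤ k, n ∈ Q i := by
    intro k N
    have h1 : (⋂ i ∈ Finset.range (k + 1), Q i) ∈ U :=
      (Filter.biInter_finset_mem (Finset.range (k + 1))).2 fun i _ => hQ i
    have h2 : {n : ℕ | N < n} ∈ U := by
      refine Filter.hyperfilter_le_cofinite ?_
      rw [Nat.cofinite_eq_atTop]
      exact Filter.Ioi_mem_atTop N
    have h3 := Filter.inter_mem (f := (U : Filter ℕ)) h1 h2
    obtain ⟨n, hn1, hn2⟩ := Filter.nonempty_of_mem h3
    refine ⟨n, hn2, fun i hi => ?_⟩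
    exact Set.mem_iInter₂.1 hn1 i (Finset.mem_range.2 (Nat.lt_succ_of_le hi))
  choose nxt hnxt1 hnxt2 using hnext
  let a : ℕ → ℕ := fun k => Nat.rec (nxt 0 0) (fun k x => nxt (k + 1) (max x (b x))) k
  have ha1 : ∀ k, max (a k) (b (a k)) < a (k + 1) := fun k => hnxt1 (k + 1) _
  have ha2 : ∀ k, ∀ i ≤ k, a k ∈ Q i := by
    intro k
    cases k with
    | zero => exact hnxt2 0 0
    | succ k => exact hnxt2 (k + 1) _
  refine ⟨a, strictMono_nat_of_lt_succ fun k => lt_of_le_of_lt (le_max_left _ _) (ha1 k), ?_, ?_⟩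
  · intro i
    by_cases h : {n | 0 ∈ eval (e i) (elt G n) 0} ∈ U
    · left
      intro k hk
      have := ha2 k i hk
      simp only [Q, if_pos h] at this
      exact this
    · right
      intro k hk
      have := ha2 k i hk
      simp only [Q, if_neg h] at this
      exact this
  · intro k i hi p hp q hq l hl v hv
    exact lt_of_le_of_lt ((hb (a k) i p q l hi hp hq hl v hv).trans (le_max_right _ _)) (ha1 k)

/-- The elements of `A ⊕ B` whose first entries are in the relation `r`. -/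
theorem isClosed_inter_test {A : Set (ℕ → ℕ)} (hA : IsClosed A) (r : ℕ → ℕ → Prop) :
    IsClosed (A ∩ {h : ℕ → ℕ | r (h 0) (h 1)}) := by
  refine hA.inter ?_
  have : {h : ℕ → ℕ | r (h 0) (h 1)} =
      (fun h : ℕ → ℕ => (h 0, h 1)) ⁻¹' {p : ℕ × ℕ | r p.1 p.2} := rfl
  rw [this]
  exact (isClosed_discrete _).preimage (by fun_prop)

/-- In the lattice of Medvedev degrees of closed subsets of Baire space, the join of two
meet-prime degrees need not be meet-prime. -/
theorem baire_not_meetPrime_sup : ∃ a b : MedvedevDegrees baire,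
    MeetPrime a ∧ MeetPrime b ∧ ¬ MeetPrime (a ⊔ b) := by
  obtain ⟨G, hG⟩ := exists_generic
  obtain ⟨e, he⟩ := exists_surjective_nat OCode
  obtain ⟨a, hmono, hcoh, hsparse⟩ := exists_sequence G e
  have hak : ∀ k, k ≤ a k := fun k => hmono.id_le k
  let R : Set ℕ := {n | ∃ k, n = a (2 * k)}
  let S : Set ℕ := {n | ∃ k, n = a (2 * k + 1)}
  have hR : R.Nonempty := ⟨_, 0, rfl⟩
  have hS : S.Nonempty := ⟨_, 0, rfl⟩
  -- the first main point: a computation from rows above `n` cannot produce row `n`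
  have hcut : ∀ (c : OCode) (n m : ℕ), n < m → ¬ Computes c (cut m G) (cut n G) := by
    intro c n m hnm hc
    obtain ⟨d, hd⟩ := exists_cut_cut m
    exact hG (subst c d) n ((hd G (n + 1) hnm).trans hc)
  refine ⟨deg (eltProblem G R hR), deg (eltProblem G S hS), ?_, ?_, ?_⟩
  · refine eltProblem_meetPrime G R hR (fun N => ⟨a (2 * N), ⟨N, rfl⟩, ?_⟩) fun c => ?_
    · have := hak (2 * N); omega
    · obtain ⟨i, rfl⟩ := he c
      refine ⟨a i, ?_⟩
      rcases hcoh i with h | h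
      · left
        rintro n ⟨k, rfl⟩ hn
        exact h _ (hmono.le_iff_le.1 hn)
      · right
        rintro n ⟨k, rfl⟩ hn
        exact h _ (hmono.le_iff_le.1 hn)
  · refine eltProblem_meetPrime G S hS (fun N => ⟨a (2 * N + 1), ⟨N, rfl⟩, ?_⟩) fun c => ?_
    · have := hak (2 * N + 1); omega
    · obtain ⟨i, rfl⟩ := he c
      refine ⟨a i, ?_⟩
      rcases hcoh i with h | h
      · left
        rintro n ⟨k, rfl⟩ hn
        exact h _ (hmono.le_iff_le.1 hn)
      · right
        rintro n ⟨k, rfl⟩ hn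
        exact h _ (hmono.le_iff_le.1 hn)
  · intro hprime
    have hcl := isClosed_joinSet (isClosed_eltSet G R) (isClosed_eltSet G S)
    -- the two parts
    let C0 : ClosedProblem baire := ⟨joinSet (eltSet G R) (eltSet G S) ∩
      {h : ℕ → ℕ | h 0 < h 1}, fun _ _ => trivial, by
        refine ⟨join (elt G (a 0)) (elt G (a 1)), ⟨_, ⟨_, ⟨0, rfl⟩, rfl⟩, _, ⟨_, ⟨0, rfl⟩, rfl⟩,
          rfl⟩, ?_⟩
        show a 0 < a 1
        exact hmono Nat.zero_lt_one, isClosed_inter_test hcl (fun x y => x < y)⟩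
    let C1 : ClosedProblem baire := ⟨joinSet (eltSet G R) (eltSet G S) ∩
      {h : ℕ → ℕ | ¬ h 0 < h 1}, fun _ _ => trivial, by
        refine ⟨join (elt G (a 2)) (elt G (a 1)), ⟨_, ⟨_, ⟨1, rfl⟩, rfl⟩, _, ⟨_, ⟨0, rfl⟩, rfl⟩,
          rfl⟩, ?_⟩
        show ¬ a 2 < a 1
        have : a 1 < a 2 := hmono (by norm_num)
        omega, isClosed_inter_test hcl (fun x y => ¬ x < y)⟩
    have hmeet : deg C0 ⊓ deg C1 ≤ deg (eltProblem G R hR) ⊔ deg (eltProblem G S hS) := by
      rw [deg_sup_deg, deg_inf_deg, deg_le_deg]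
      have h2 : Computable fun n : ℕ => n - 1 :=
        (Primrec.nat_sub.comp Primrec.id (Primrec.const 1)).to_comp
      have h3 : Computable fun _ : ℕ => 1 := Computable.const 1
      have hF : Computable fun p : ℕ × ℕ × ℕ =>
          if p.1 = 0 then (if p.2.1 < p.2.2 then 0 else 1) else p.2.1 :=
        (Primrec.ite (Primrec.eq.comp Primrec.fst (Primrec.const 0))
          (Primrec.ite (Primrec.nat_lt.comp (Primrec.fst.comp Primrec.snd)
            (Primrec.snd.comp Primrec.snd))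
            (Primrec.const 0) (Primrec.const 1)) (Primrec.fst.comp Primrec.snd)).to_comp
      obtain ⟨p, hp⟩ := exists_combine' (F := fun n x y => if n = 0 then (if x < y then 0 else 1)
        else x) h2 h3 hF
      refine medvedevLE_iff.2 ⟨p, fun g hg => ⟨_, ?_, hp g⟩⟩
      refine mem_meetSet.2 ?_
      by_cases hlt : g 0 < g 1
      · exact Or.inl ⟨by simp [hlt], hg, hlt⟩
      · exact Or.inr ⟨by simp [hlt], hg, hlt⟩
    -- a computation from the rows above `m` of an element with a smaller index is impossible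
    have himp : ∀ (c : OCode) (m s t : ℕ), m ≤ s → m ≤ t → ∀ (h : ℕ → ℕ),
        Computes c (join (elt G s) (elt G t)) h → ∀ n' m', h = join (elt G n') (elt G m') →
        m ≤ n' ∧ m ≤ m' := by
      intro c m s t hms hmt h hc n' m' hh
      obtain ⟨c1, hc1⟩ := exists_cut_elt s
      obtain ⟨c2, hc2⟩ := exists_cut_elt t
      obtain ⟨c3, hc3⟩ := exists_join c1 c2
      obtain ⟨c4, hc4⟩ := exists_elt_cut
      obtain ⟨ev, hev⟩ := exists_even
      obtain ⟨od, hod⟩ := exists_odd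
      have h1 : Computes (subst c c3) (cut m G) h :=
        (hc3 _ _ _ (hc1 G m hms) (hc2 G m hmt)).trans hc
      constructor
      · by_contra hlt
        have h2 := hev h
        rw [hh] at h2
        simp only [join_two_mul] at h2
        rw [← hh] at h2
        exact hcut _ n' m (by omega) ((h1.trans h2).trans (hc4 G n'))
      · by_contra hlt
        have h2 := hod h
        rw [hh] at h2
        simp only [join_two_mul_add_one] at h2
        rw [← hh] at h2
        exact hcut _ m' m (by omega) ((h1.trans h2).trans (hc4 G m'))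
    rcases hprime _ _ hmeet with h | h
    · rw [deg_sup_deg, deg_le_deg, medvedevLE_iff] at h
      obtain ⟨c, hc⟩ := h
      obtain ⟨i, rfl⟩ := he c
      -- consecutive elements `t < s`
      have hts : a (2 * i + 1) < a (2 * i + 2) := hmono (by omega)
      obtain ⟨g, ⟨⟨x, ⟨n', hn', rfl⟩, y, ⟨m', hm', rfl⟩, rfl⟩, hlt⟩, hg⟩ :=
        hc (join (elt G (a (2 * i + 2))) (elt G (a (2 * i + 1))))
          ⟨_, ⟨_, ⟨i + 1, rfl⟩, rfl⟩, _, ⟨_, ⟨i, rfl⟩, rfl⟩, rfl⟩
      have hlt' : n' < m' := hlt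
      obtain ⟨hn, -⟩ := himp _ (a (2 * i + 1)) _ _ hts.le le_rfl _ hg n' m' rfl
      have hval : m' < a (2 * i + 2 + 1) :=
        hsparse (2 * i + 2) i ((hak _).trans' (by omega)) _ le_rfl _ hts.le 1 (by norm_num) m'
          (hg 1)
      obtain ⟨k, rfl⟩ := hm'
      have h1 : 2 * k + 1 < 2 * i + 2 + 1 := hmono.lt_iff_lt.1 hval
      have h2 : a (2 * k + 1) ≤ a (2 * i + 1) := hmono.le_iff_le.2 (by omega)
      omega
    · rw [deg_sup_deg, deg_le_deg, medvedevLE_iff] at h
      obtain ⟨c, hc⟩ := h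
      obtain ⟨i, rfl⟩ := he c
      -- consecutive elements `s < t`
      have hts : a (2 * i) < a (2 * i + 1) := hmono (by omega)
      obtain ⟨g, ⟨⟨x, ⟨n', hn', rfl⟩, y, ⟨m', hm', rfl⟩, rfl⟩, hlt⟩, hg⟩ :=
        hc (join (elt G (a (2 * i))) (elt G (a (2 * i + 1))))
          ⟨_, ⟨_, ⟨i, rfl⟩, rfl⟩, _, ⟨_, ⟨i, rfl⟩, rfl⟩, rfl⟩
      have hlt' : ¬ n' < m' := hlt
      obtain ⟨-, hm⟩ := himp _ (a (2 * i)) _ _ le_rfl hts.le _ hg n' m' rfl
      have hval : n' < a (2 * i + 1 + 1) :=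
        hsparse (2 * i + 1) i ((hak _).trans' (by omega)) _ hts.le _ le_rfl 0 (by norm_num) n'
          (hg 0)
      obtain ⟨k, rfl⟩ := hn'
      obtain ⟨l, rfl⟩ := hm'
      have h1 : 2 * k < 2 * i + 1 + 1 := hmono.lt_iff_lt.1 hval
      have h2 : a (2 * k) ≤ a (2 * i) := hmono.le_iff_le.2 (by omega)
      have h3 : a (2 * l + 1) ≤ a (2 * i) := by omega
      have h4 : a (2 * i) ≤ a (2 * l + 1) := hm
      have h5 : a (2 * i) = a (2 * l + 1) := le_antisymm h4 h3
      have h6 : 2 * i = 2 * l + 1 := hmono.injective h5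
      omega

end Pool.Agent.Lib.MP_ed0562_lc
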